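import Pool.Agent.Helper82.EN.Basic

set_option autoImplicit false

/-! # ENCODING BY TM, module BAD: few blocks are bad -/

namespace Pool.Agent.Helper82.EN

open Finset

theorem bad_digits (D m m' : ℕ) (h0 : m % 3 ^ D = m' % 3 ^ D)
    (h : ∀ e < 3 * D, m / 3 ^ (D + e) % 3 = m' / 3 ^ (D + e) % 3)
    (hm : m < 3 ^ (4 * D)) (hm' : m' < 3 ^ (4 * D)) : m = m' := by
  have key : ∀ e ≤ 3 * D, m % 3 ^ (D + e) = m' % 3 ^ (D + e) := by
    intro e
    induction e with
    | zero => intro _; simpa using h0
    | succ e ih =>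
      intro he
      have h1 := ih (by omega)
      have h2 := h e (by omega)
      rw [← Nat.add_assoc, Nat.mod_pow_succ, Nat.mod_pow_succ, h1, h2]
  have h1 := key (3 * D) le_rfl
  have h2 : D + 3 * D = 4 * D := by ring
  rw [h2, Nat.mod_eq_of_lt hm, Nat.mod_eq_of_lt hm'] at h1
  exact h1

/-- module BAD -/
theorem st_BAD (hGEN : ST_GEN) : ST_BAD := by
  classical
  intro Q _ P M K Δ hQ hP
  have hG := hGEN Q P M K Δ hQ hP
  have hD3 := hP.hD3
  have hN : P.N = 3 ^ P.D * 27 ^ P.D := by
    unfold Pa.N
    rw [show 4 * P.D = P.D + 3 * P.D by ring, pow_add, pow_mul 3 3 P.D]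
    norm_num
  set W := 3 ^ P.D with hW
  have hWpos : 0 < W := by positivity
  -- the triples which are not generic
  let B1 : Finset ℕ := (range P.N).filter fun m => ¬ P.Gen M Δ (P.sw (m + 1))
  let B2 : Finset ℕ := (range P.N).filter fun m => m % W = W - 1
  have h1 : B1.card ≤ W * (univ.filter fun w : Fin 3 → P.Wd => ¬ P.Gen M Δ w).card := by
    have : B1.card ≤ (range W ×ˢ (univ.filter fun w : Fin 3 → P.Wd => ¬ P.Gen M Δ w)).card := by
      refine Finset.card_le_card_of_injOn (fun m => (m % W, P.sw (m + 1))) ?_ ?_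
      · intro m hm
        simp only [B1, Finset.coe_filter, Finset.mem_range, Set.mem_ofPred_eq] at hm
        simp only [Finset.coe_product, Finset.coe_range, Finset.coe_filter, Finset.mem_univ,
          true_and, Set.mem_prod, Set.mem_Iio, Set.mem_ofPred_eq]
        exact ⟨Nat.mod_lt _ hWpos, hm.2⟩
      · intro m hm m' hm' h
        simp only [B1, Finset.coe_filter, Finset.mem_range, Set.mem_ofPred_eq] at hm hm'
        simp only [Prod.mk.injEq] at h
        obtain ⟨ha, hb⟩ := h
        refine bad_digits P.D m m' ha ?_ hm.1 hm'.1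
        intro e he
        -- e = i * D + x
        have hDpos : 0 < P.D := by omega
        have hi : e / P.D < 3 := by
          rw [Nat.div_lt_iff_lt_mul hDpos]; omega
        have hc := congrFun (congrFun hb ⟨e / P.D, hi⟩) ⟨e % P.D, Nat.mod_lt _ hDpos⟩
        simp only [Pa.sw, Pa.wd, Nat.add_sub_cancel, Fin.mk.injEq] at hc
        have he2 : (e / P.D + 1) * P.D + e % P.D = P.D + e := by
          have := Nat.div_add_mod e P.D
          rw [Nat.add_mul, Nat.one_mul, Nat.mul_comm]
          omega
        rw [he2] at hc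
        exact hc
    rwa [Finset.card_product, Finset.card_range] at this
  have h2 : B2.card ≤ 27 ^ P.D := by
    have : B2.card ≤ (range (27 ^ P.D)).card := by
      refine Finset.card_le_card_of_injOn (fun m => m / W) ?_ ?_
      · intro m hm
        simp only [B2, Finset.coe_filter, Finset.mem_range, Set.mem_ofPred_eq] at hm
        simp only [Finset.coe_range, Set.mem_Iio]
        rw [Nat.div_lt_iff_lt_mul hWpos, Nat.mul_comm, ← hN]
        exact hm.1
      · intro m hm m' hm' h
        simp only [B2, Finset.coe_filter, Finset.mem_range, Set.mem_ofPred_eq] at hm hm' h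
        rw [← Nat.div_add_mod m W, ← Nat.div_add_mod m' W, hm.2, hm'.2, h]
    rwa [Finset.card_range] at this
  have hcard : ∀ s : Finset ℕ, (∀ k ∈ s, k ≤ P.N ∧ ¬ P.good M Δ k) →
      s.card ≤ (B1.card + B2.card) + 1 := by
    intro s hs
    have hsub : s ⊆ insert 0 ((B1 ∪ B2).image (· + 1)) := by
      intro k hk
      obtain ⟨hk1, hk2⟩ := hs k hk
      rw [Finset.mem_insert]
      rcases Nat.eq_zero_or_pos k with h | h
      · exact Or.inl h
      · right
        rw [Finset.mem_image]
        refine ⟨k - 1, ?_, by omega⟩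
        by_contra hcon
        apply hk2
        simp only [B1, B2, Finset.mem_union, Finset.mem_filter, Finset.mem_range, not_or,
          not_and, not_not] at hcon
        have h3 := hcon.1 (by omega)
        have h4 := hcon.2 (by omega)
        rw [Nat.sub_add_cancel h] at h3
        exact ⟨h, by omega, h3, h4⟩
    refine (Finset.card_le_card hsub).trans ?_
    refine (Finset.card_insert_le _ _).trans ?_
    exact Nat.add_le_add_right (Finset.card_image_le.trans (Finset.card_union_le _ _)) 1
  have h3 : 1000 * B1.card ≤ P.N := by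
    calc 1000 * B1.card
        ≤ 1000 * (W * (univ.filter fun w : Fin 3 → P.Wd => ¬ P.Gen M Δ w).card) :=
          Nat.mul_le_mul_left _ h1
      _ = W * (1000 * (univ.filter fun w : Fin 3 → P.Wd => ¬ P.Gen M Δ w).card) := by ring
      _ ≤ W * 27 ^ P.D := Nat.mul_le_mul_left _ hG
      _ = P.N := hN.symm
  have h4 : 10000 * B2.card ≤ P.N := by
    calc 10000 * B2.card ≤ 10000 * 27 ^ P.D := Nat.mul_le_mul_left _ h2
      _ ≤ W * 27 ^ P.D := Nat.mul_le_mul_right _ hD3
      _ = P.N := hN.symm
  have h6 : ∀ s : Finset ℕ, (∀ k ∈ s, k ≤ P.N ∧ ¬ P.good M Δ k) → 900 * s.card ≤ P.N + 1800 := by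
    intro s hs
    have := hcard s hs
    omega
  refine h6 _ ?_
  intro k hk
  rw [Finset.mem_filter, Finset.mem_range] at hk
  exact ⟨by omega, hk.2⟩

end Pool.Agent.Helper82.EN
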