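import Pool.Agent.Helper82.EN.Basic

set_option autoImplicit false

/-! # ENCODING BY TM, module GEN: few triples of seed words are not generic -/

namespace Pool.Agent.Helper82.EN

open Finset

/-- Prescribing the values at `|ι|` distinct positions. -/
theorem gen_fib {ι κ γ X : Type} [Fintype ι] [DecidableEq ι] [Fintype κ] [DecidableEq κ]
    [Fintype γ] [DecidableEq γ] [DecidableEq X] (pos : ι → κ) (hpos : Function.Injective pos)
    (F : (κ → γ) → X) (hF : ∀ u u', F u = F u' → ∀ t, u (pos t) = u' (pos t)) (B : Finset X) :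
    (univ.filter fun u : κ → γ => F u ∈ B).card * Fintype.card γ ^ Fintype.card ι ≤
      B.card * Fintype.card γ ^ Fintype.card κ := by
  classical
  have h1 : ((univ.filter fun u : κ → γ => F u ∈ B) ×ˢ (univ : Finset (ι → γ))).card ≤
      (B ×ˢ (univ : Finset (κ → γ))).card := by
    refine Finset.card_le_card_of_injOn
      (fun x => (F x.1, Function.extend pos x.2 x.1)) ?_ ?_
    · rintro ⟨u, f⟩ hu
      simp only [Finset.coe_product, Finset.coe_filter, Finset.mem_univ, true_and, Finset.coe_univ,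
        Set.mem_prod, Set.mem_ofPred_eq, Set.mem_univ, and_true, Finset.mem_coe] at hu ⊢
      exact hu
    · rintro ⟨u, f⟩ - ⟨u', f'⟩ - h
      simp only [Prod.mk.injEq] at h
      obtain ⟨ha, hb⟩ := h
      have hc := hF u u' ha
      have h2 : f = f' := by
        funext t
        have := congrFun hb (pos t)
        rwa [hpos.extend_apply, hpos.extend_apply] at this
      have h3 : u = u' := by
        funext k
        by_cases hk : ∃ t, pos t = k
        · obtain ⟨t, rfl⟩ := hk
          exact hc t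
        · have := congrFun hb k
          rwa [Function.extend_apply' _ _ _ hk, Function.extend_apply' _ _ _ hk] at this
      rw [h2, h3]
  rw [Finset.card_product, Finset.card_product] at h1
  simpa [Finset.card_univ, Fintype.card_fun] using h1

theorem gen_em_inj {a b : Fin 3} (h : em a = em b) : a = b := by
  simp only [em, Fin.mk.injEq, Nat.add_right_cancel_iff] at h
  exact Fin.ext h

theorem gen_idx (i l : Fin 3) : l = i ∨ l = i + 1 ∨ l = i + 2 := by
  revert i l; decide

section
variable (P : Pa)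

theorem gen_cardW : Fintype.card P.Wd = 3 ^ P.D := by
  simp [Pa.Wd]

theorem gen_27 : (3 : ℕ) ^ P.D * 3 ^ P.D * 3 ^ P.D = 27 ^ P.D := by
  rw [← mul_pow, ← mul_pow]
  norm_num

theorem gen_243 : (3 : ℕ) ^ (5 * P.d) = 243 ^ P.d := by
  rw [pow_mul]; norm_num

/-- one coordinate -/
theorem gen_one (p : P.Wd → Prop) [DecidablePred p] (i : Fin 3)
    [DecidablePred fun w : Fin 3 → P.Wd => p (w i)] :
    (univ.filter fun w : Fin 3 → P.Wd => p (w i)).card ≤
      (univ.filter p).card * 3 ^ P.D * 3 ^ P.D := by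
  have h1 : (univ.filter fun w : Fin 3 → P.Wd => p (w i)).card ≤
      (((univ.filter p) ×ˢ (univ : Finset P.Wd)) ×ˢ (univ : Finset P.Wd)).card := by
    refine Finset.card_le_card_of_injOn (fun w => ((w i, w (i + 1)), w (i + 2))) ?_ ?_
    · intro w hw
      simpa using hw
    · intro w _ w' _ h
      simp only [Prod.mk.injEq] at h
      funext l
      rcases gen_idx i l with rfl | rfl | rfl
      · exact h.1.1
      · exact h.1.2
      · exact h.2
  rw [Finset.card_product, Finset.card_product, Finset.card_univ, gen_cardW] at h1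
  exact h1

/-- two coordinates -/
theorem gen_two (q : P.Wd → P.Wd → Prop) (i : Fin 3)
    [DecidablePred fun w : Fin 3 → P.Wd => q (w i) (w (i + 1))]
    [DecidablePred fun x : P.Wd × P.Wd => q x.1 x.2] :
    (univ.filter fun w : Fin 3 → P.Wd => q (w i) (w (i + 1))).card ≤
      (univ.filter fun x : P.Wd × P.Wd => q x.1 x.2).card * 3 ^ P.D := by
  have h1 : (univ.filter fun w : Fin 3 → P.Wd => q (w i) (w (i + 1))).card ≤
      ((univ.filter fun x : P.Wd × P.Wd => q x.1 x.2) ×ˢ (univ : Finset P.Wd)).card := by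
    refine Finset.card_le_card_of_injOn (fun w => ((w i, w (i + 1)), w (i + 2))) ?_ ?_
    · intro w hw
      simpa using hw
    · intro w _ w' _ h
      simp only [Prod.mk.injEq] at h
      funext l
      rcases gen_idx i l with rfl | rfl | rfl
      · exact h.1.1
      · exact h.1.2
      · exact h.2
  rw [Finset.card_product, Finset.card_univ, gen_cardW] at h1
  exact h1

open Classical in
/-- all coordinates -/
theorem gen_all (r : P.Wd → Prop) :
    (univ.filter fun w : Fin 3 → P.Wd => ∀ i, r (w i)).card ≤ (univ.filter r).card ^ 3 := by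
  have h1 : (univ.filter fun w : Fin 3 → P.Wd => ∀ i, r (w i)) ⊆
      Fintype.piFinset (fun _ : Fin 3 => univ.filter r) := by
    intro w hw
    rw [Finset.mem_filter] at hw
    rw [Fintype.mem_piFinset]
    intro i
    rw [Finset.mem_filter]
    exact ⟨Finset.mem_univ _, hw.2 i⟩
  refine (Finset.card_le_card h1).trans ?_
  rw [Fintype.card_piFinset]
  simp

variable {Q : Type} (M : Mc Q)

open Classical in
theorem gen_cyc (hd : 1 ≤ P.d) (hD : 5 * P.d ≤ P.D) (i : Fin 3) (j : ℕ) :
    (univ.filter fun w : Fin 3 → P.Wd => P.Eb M (P.cyc (w i) j)).card * 243 ^ P.d ≤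
      (univ.filter fun V => P.Eb M V).card * 27 ^ P.D := by
  have hDpos : 0 < P.D := by omega
  have h1 := gen_fib (γ := Fin 3) (fun t : Fin (5 * P.d) =>
    (⟨(t + j) % P.D, Nat.mod_lt _ hDpos⟩ : Fin P.D)) (by
      intro t t' h
      simp only [Fin.mk.injEq] at h
      have h2 : (t : ℕ) ≡ t' [MOD P.D] := Nat.ModEq.add_right_cancel' j h
      have h3 := Nat.ModEq.eq_of_lt_of_lt h2 (by omega) (by omega)
      exact Fin.ext h3) (fun u : P.Wd => P.cyc u j) (by
      intro u u' h t
      have h2 := congrFun h t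
      simp only [Pa.cyc, dif_pos hDpos] at h2
      exact gen_em_inj h2) (univ.filter fun V => P.Eb M V)
  simp only [Fintype.card_fin, Finset.mem_filter, Finset.mem_univ, true_and] at h1
  rw [gen_243] at h1
  have h2 := gen_one P (fun u => P.Eb M (P.cyc u j)) i
  calc (univ.filter fun w : Fin 3 → P.Wd => P.Eb M (P.cyc (w i) j)).card * 243 ^ P.d
      ≤ ((univ.filter fun u => P.Eb M (P.cyc u j)).card * 3 ^ P.D * 3 ^ P.D) * 243 ^ P.d :=
        Nat.mul_le_mul_right _ h2
    _ = ((univ.filter fun u => P.Eb M (P.cyc u j)).card * 243 ^ P.d) * (3 ^ P.D * 3 ^ P.D) := by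
        ring
    _ ≤ ((univ.filter fun V => P.Eb M V).card * 3 ^ P.D) * (3 ^ P.D * 3 ^ P.D) :=
        Nat.mul_le_mul_right _ h1
    _ = (univ.filter fun V => P.Eb M V).card * (3 ^ P.D * 3 ^ P.D * 3 ^ P.D) := by ring
    _ = _ := by rw [gen_27]

open Classical in
theorem gen_jun (hd : 1 ≤ P.d) (hD : 5 * P.d ≤ P.D) (i : Fin 3) (x : ℕ) (hx : x ≤ 5 * P.d) :
    (univ.filter fun w : Fin 3 → P.Wd => P.Eb M (P.jun (w i) (w (i + 1)) x)).card * 243 ^ P.d ≤
      (univ.filter fun V => P.Eb M V).card * 27 ^ P.D := by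
  have hDpos : 0 < P.D := by omega
  have h1 := gen_fib (γ := Fin 3) (κ := Fin P.D ⊕ Fin P.D) (fun t : Fin (5 * P.d) =>
      if (t : ℕ) < x then Sum.inl (⟨(P.D - x + t) % P.D, Nat.mod_lt _ hDpos⟩ : Fin P.D)
      else Sum.inr (⟨(t - x) % P.D, Nat.mod_lt _ hDpos⟩ : Fin P.D)) (by
        intro t t' h
        have e1 : ∀ t : ℕ, t < x → (P.D - x + t) % P.D = P.D - x + t :=
          fun t ht => Nat.mod_eq_of_lt (by omega)
        have e2 : ∀ t : ℕ, t < 5 * P.d → (t - x) % P.D = t - x :=
          fun t ht => Nat.mod_eq_of_lt (by omega)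
        have ht := t.2
        have ht' := t'.2
        by_cases a1 : (t : ℕ) < x <;> by_cases a2 : (t' : ℕ) < x
        · simp only [if_pos a1, if_pos a2, Sum.inl.injEq, Fin.mk.injEq, e1 _ a1, e1 _ a2] at h
          exact Fin.ext (by omega)
        · simp only [if_pos a1, if_neg a2, reduceCtorEq] at h
        · simp only [if_neg a1, if_pos a2, reduceCtorEq] at h
        · simp only [if_neg a1, if_neg a2, Sum.inr.injEq, Fin.mk.injEq, e2 _ ht, e2 _ ht'] at h
          exact Fin.ext (by omega))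
      (fun g : Fin P.D ⊕ Fin P.D → Fin 3 =>
        P.jun (fun z => g (Sum.inl z)) (fun z => g (Sum.inr z)) x) (by
        intro u u' h t
        have h2 := congrFun h t
        simp only [Pa.jun, dif_pos hDpos] at h2
        by_cases a1 : (t : ℕ) < x
        · simp only [if_pos a1] at h2 ⊢
          exact gen_em_inj h2
        · simp only [if_neg a1] at h2 ⊢
          exact gen_em_inj h2) (univ.filter fun V => P.Eb M V)
  simp only [Fintype.card_fin, Fintype.card_sum, Finset.mem_filter, Finset.mem_univ,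
    true_and] at h1
  rw [gen_243] at h1
  have h2 : (univ.filter fun w : Fin 3 → P.Wd => P.Eb M (P.jun (w i) (w (i + 1)) x)).card ≤
      ((univ.filter fun g : Fin P.D ⊕ Fin P.D → Fin 3 =>
        P.Eb M (P.jun (fun z => g (Sum.inl z)) (fun z => g (Sum.inr z)) x)) ×ˢ
        (univ : Finset P.Wd)).card := by
    refine Finset.card_le_card_of_injOn
      (fun w => (Sum.elim (w i) (w (i + 1)), w (i + 2))) ?_ ?_
    · intro w hw
      simpa using hw
    · intro w _ w' _ h
      simp only [Prod.mk.injEq] at h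
      obtain ⟨ha, hb⟩ := h
      funext l
      rcases gen_idx i l with rfl | rfl | rfl
      · funext z
        have := congrFun ha (Sum.inl z)
        simpa using this
      · funext z
        have := congrFun ha (Sum.inr z)
        simpa using this
      · exact hb
  rw [Finset.card_product, Finset.card_univ, gen_cardW] at h2
  calc (univ.filter fun w : Fin 3 → P.Wd => P.Eb M (P.jun (w i) (w (i + 1)) x)).card * 243 ^ P.d
      ≤ ((univ.filter fun g : Fin P.D ⊕ Fin P.D → Fin 3 =>
        P.Eb M (P.jun (fun z => g (Sum.inl z)) (fun z => g (Sum.inr z)) x)).card * 3 ^ P.D)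
          * 243 ^ P.d := Nat.mul_le_mul_right _ h2
    _ = ((univ.filter fun g : Fin P.D ⊕ Fin P.D → Fin 3 =>
        P.Eb M (P.jun (fun z => g (Sum.inl z)) (fun z => g (Sum.inr z)) x)).card * 243 ^ P.d)
          * 3 ^ P.D := by ring
    _ ≤ ((univ.filter fun V => P.Eb M V).card * 3 ^ (P.D + P.D)) * 3 ^ P.D :=
        Nat.mul_le_mul_right _ h1
    _ = (univ.filter fun V => P.Eb M V).card * (3 ^ P.D * 3 ^ P.D * 3 ^ P.D) := by
        rw [pow_add]; ring
    _ = _ := by rw [gen_27]

open Classical in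
theorem gen_odeg (S : Finset P.Wd) : ∑ a ∈ S, P.odeg M a ≤
    (univ.filter fun x : P.Wd × P.Wd => P.Rel M x.1 x.2).card := by
  unfold Pa.odeg
  rw [← Finset.card_sigma]
  refine Finset.card_le_card_of_injOn (fun x => (x.1, x.2)) ?_ ?_
  · rintro ⟨a, w⟩ hx
    simp only [Finset.coe_sigma, Set.mem_sigma_iff, Finset.mem_coe, Finset.mem_filter,
      Finset.mem_univ, true_and] at hx ⊢
    exact hx.2
  · rintro ⟨a, w⟩ - ⟨a', w'⟩ - h
    simp only [Prod.mk.injEq] at h
    obtain ⟨rfl, rfl⟩ := h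
    rfl

open Classical in
theorem gen_ideg (S : Finset P.Wd) : ∑ a ∈ S, P.ideg M a ≤
    (univ.filter fun x : P.Wd × P.Wd => P.Rel M x.1 x.2).card := by
  unfold Pa.ideg
  rw [← Finset.card_sigma]
  refine Finset.card_le_card_of_injOn (fun x => (x.2, x.1)) ?_ ?_
  · rintro ⟨a, w⟩ hx
    simp only [Finset.coe_sigma, Set.mem_sigma_iff, Finset.mem_coe, Finset.mem_filter,
      Finset.mem_univ, true_and] at hx ⊢
    exact hx.2
  · rintro ⟨a, w⟩ - ⟨a', w'⟩ - h
    simp only [Prod.mk.injEq] at h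
    obtain ⟨rfl, rfl⟩ := h
    rfl

open Classical in
/-- few words of large degree -/
theorem gen_deg (f : P.Wd → ℕ) (R Δ : ℕ) (hf : ∀ S : Finset P.Wd, ∑ a ∈ S, f a ≤ R)
    (hΔ : 1 ≤ Δ) (h2 : 100000 * R ≤ Δ * 3 ^ P.D) :
    100000 * (univ.filter fun a => ¬ f a ≤ Δ).card ≤ 3 ^ P.D := by
  have h3 : (univ.filter fun a => ¬ f a ≤ Δ).card * Δ ≤ R := by
    refine le_trans ?_ (hf (univ.filter fun a => ¬ f a ≤ Δ))
    rw [← smul_eq_mul]
    refine Finset.card_nsmul_le_sum _ _ _ ?_
    intro a ha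
    rw [Finset.mem_filter] at ha
    omega
  have h4 : 100000 * (univ.filter fun a => ¬ f a ≤ Δ).card * Δ ≤ 3 ^ P.D * Δ := by
    calc 100000 * (univ.filter fun a => ¬ f a ≤ Δ).card * Δ
        = 100000 * ((univ.filter fun a => ¬ f a ≤ Δ).card * Δ) := by ring
      _ ≤ 100000 * R := Nat.mul_le_mul_left _ h3
      _ ≤ Δ * 3 ^ P.D := h2
      _ = _ := by ring
  exact Nat.le_of_mul_le_mul_right h4 hΔ

open Classical in
/-- triples with a common neighbour of small degree -/
theorem gen_common (r : P.Wd → P.Wd → Prop) (Δ : ℕ) :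
    (univ.filter fun w : Fin 3 → P.Wd => ∃ s, (univ.filter (r s)).card ≤ Δ ∧
      ∀ i, r s (w i)).card ≤ 3 ^ P.D * Δ ^ 3 := by
  have h1 : (univ.filter fun w : Fin 3 → P.Wd => ∃ s, (univ.filter (r s)).card ≤ Δ ∧
      ∀ i, r s (w i)) ⊆ (univ.filter fun s => (univ.filter (r s)).card ≤ Δ).biUnion
        fun s => univ.filter fun w : Fin 3 → P.Wd => ∀ i, r s (w i) := by
    intro w hw
    rw [Finset.mem_filter] at hw
    obtain ⟨-, s, hs, hw⟩ := hw
    rw [Finset.mem_biUnion]
    exact ⟨s, by simpa using hs, by simpa using hw⟩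
  calc (univ.filter fun w : Fin 3 → P.Wd => ∃ s, (univ.filter (r s)).card ≤ Δ ∧
      ∀ i, r s (w i)).card
      ≤ _ := Finset.card_le_card h1
    _ ≤ ∑ s ∈ (univ.filter fun s => (univ.filter (r s)).card ≤ Δ),
        (univ.filter fun w : Fin 3 → P.Wd => ∀ i, r s (w i)).card := Finset.card_biUnion_le
    _ ≤ ∑ s ∈ (univ.filter fun s => (univ.filter (r s)).card ≤ Δ), Δ ^ 3 := by
        refine Finset.sum_le_sum fun s hs => ?_
        rw [Finset.mem_filter] at hs
        exact (gen_all P (r s)).trans (Nat.pow_le_pow_left hs.2 3)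
    _ = (univ.filter fun s => (univ.filter (r s)).card ≤ Δ).card * Δ ^ 3 := by
        rw [Finset.sum_const, smul_eq_mul]
    _ ≤ (univ : Finset P.Wd).card * Δ ^ 3 :=
        Nat.mul_le_mul_right _ (Finset.card_filter_le _ _)
    _ = 3 ^ P.D * Δ ^ 3 := by rw [Finset.card_univ, gen_cardW]

open Classical in
/-- the numerical part -/
theorem gen_main (K Δ : ℕ) (hP : P.Ok K Δ)
    (hEB : (univ.filter fun V => P.Eb M V).card ≤ 2 * (K * (3 * P.d) * 216 ^ P.d))
    (hRC : (univ.filter fun x : P.Wd × P.Wd => P.Rel M x.1 x.2).card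
      ≤ 4 * K ^ 2 * P.D ^ 2 * 6 ^ (P.D + 4 * P.kap))
    (hBl : (univ.filter fun w : P.Wd => P.Blk M w).card ≤ 2 * K * P.D * 6 ^ (2 * P.kap)) :
    1000 * (univ.filter fun w : Fin 3 → P.Wd => ¬ P.Gen M Δ w).card ≤ 27 ^ P.D := by
  obtain ⟨hK, hd, hdD, -, -, -, -, -, hD3, p1, p2, p3, p4⟩ := hP
  have hDpos : 0 < P.D := by omega
  -- the parameter Δ
  have h3pos : 0 < 3 ^ P.D := by positivity
  have hΔ1 : 1 ≤ Δ := by
    rcases Nat.eq_zero_or_pos Δ with h | h
    · exfalso
      rw [h, Nat.zero_mul] at p2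
      have : 0 < 100000 * (4 * K ^ 2 * P.D ^ 2 * 6 ^ (P.D + 4 * P.kap)) := by positivity
      omega
    · exact h
  have h9 : (3 : ℕ) ^ P.D * 3 ^ P.D = 9 ^ P.D := by rw [← mul_pow]; norm_num
  have hΔ2 : Δ ≤ 3 ^ P.D := by
    by_contra hcon
    push Not at hcon
    have h1 : (3 ^ P.D) ^ 2 ≤ Δ ^ 2 := Nat.pow_le_pow_left hcon.le 2
    have h2 : Δ ^ 2 ≤ Δ ^ 3 := Nat.pow_le_pow_right hΔ1 (by norm_num)
    have h3 : (3 ^ P.D) ^ 2 = 9 ^ P.D := by rw [sq, h9]
    have h4 : 0 < 9 ^ P.D := by positivity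
    omega
  -- names
  set W := 3 ^ P.D with hW
  set T := 27 ^ P.D with hT
  have hWT : W * W * W = T := gen_27 P
  -- events
  let A1 : Fin 3 → ℕ → Finset (Fin 3 → P.Wd) := fun i j =>
    univ.filter fun w : Fin 3 → P.Wd => P.Eb M (P.cyc (w i) j)
  let A2 : Fin 3 → ℕ → Finset (Fin 3 → P.Wd) := fun i x =>
    univ.filter fun w : Fin 3 → P.Wd => P.Eb M (P.jun (w i) (w (i + 1)) x)
  let A3 : Fin 3 → Finset (Fin 3 → P.Wd) := fun i =>
    univ.filter fun w : Fin 3 → P.Wd => ¬ P.odeg M (w i) ≤ Δ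
  let A4 : Fin 3 → Finset (Fin 3 → P.Wd) := fun i =>
    univ.filter fun w : Fin 3 → P.Wd => ¬ P.ideg M (w i) ≤ Δ
  let A5 : Finset (Fin 3 → P.Wd) :=
    univ.filter fun w : Fin 3 → P.Wd => ∃ s, (univ.filter ((fun s a => P.Rel M a s) s)).card ≤ Δ ∧
      ∀ i, (fun s a => P.Rel M a s) s (w i)
  let A6 : Finset (Fin 3 → P.Wd) :=
    univ.filter fun w : Fin 3 → P.Wd => ∃ s, (univ.filter (P.Rel M s)).card ≤ Δ ∧
      ∀ i, P.Rel M s (w i)
  let A7 : Finset (Fin 3 → P.Wd) :=
    univ.filter fun w : Fin 3 → P.Wd => P.Rel M (w 0) (w (0 + 1))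
  let A8 : Fin 3 → Finset (Fin 3 → P.Wd) := fun i =>
    univ.filter fun w : Fin 3 → P.Wd => P.Blk M (w i)
  let A9 : Finset (Fin 3 → P.Wd) :=
    univ.filter fun w : Fin 3 → P.Wd => w 0 = w (0 + 1)
  let U12 : Finset (Fin 3 → P.Wd) :=
    (univ.biUnion fun i => (range P.D).biUnion fun j => A1 i j) ∪
      (univ.biUnion fun i => (range (5 * P.d + 1)).biUnion fun x => A2 i x)
  let U34 : Finset (Fin 3 → P.Wd) := (univ.biUnion fun i => A3 i) ∪ (univ.biUnion fun i => A4 i)
  let U8 : Finset (Fin 3 → P.Wd) := univ.biUnion fun i => A8 i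
  have hsub : (univ.filter fun w : Fin 3 → P.Wd => ¬ P.Gen M Δ w) ⊆
      U12 ∪ (U34 ∪ (A5 ∪ (A6 ∪ (A7 ∪ (U8 ∪ A9))))) := by
    intro w hw
    rw [Finset.mem_filter] at hw
    by_contra hcon
    apply hw.2
    simp only [Finset.mem_union, not_or] at hcon
    obtain ⟨h12, h34, h5, h6, h7, h8, h9'⟩ := hcon
    simp only [U12, U34, U8, A1, A2, A3, A4, A8, Finset.mem_union, Finset.mem_biUnion,
      Finset.mem_univ, true_and, Finset.mem_range, Finset.mem_filter, not_or, not_exists,
      not_and] at h12 h34 h8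
    simp only [A5, A6, A7, A9, Finset.mem_filter, Finset.mem_univ, true_and, not_exists,
      not_and] at h5 h6 h7 h9'
    refine ⟨h12.1, fun i x hx => h12.2 i x (by omega), fun i => ⟨?_, ?_⟩, ?_, ?_, h7, h8, h9'⟩
    · exact not_not.1 (h34.1 i)
    · exact not_not.1 (h34.2 i)
    · intro s hs hall
      exact h5 s hs hall
    · intro s hs hall
      exact h6 s hs hall
  -- bounds
  have b12 : 100000 * U12.card ≤ T := by
    have c1 : U12.card ≤ (∑ _i : Fin 3, ∑ j ∈ range P.D, (A1 _i j).card) +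
        ∑ _i : Fin 3, ∑ x ∈ range (5 * P.d + 1), (A2 _i x).card := by
      refine (Finset.card_union_le _ _).trans (Nat.add_le_add ?_ ?_)
      · refine Finset.card_biUnion_le.trans (Finset.sum_le_sum fun i _ => ?_)
        exact Finset.card_biUnion_le
      · refine Finset.card_biUnion_le.trans (Finset.sum_le_sum fun i _ => ?_)
        exact Finset.card_biUnion_le
    set E := (univ.filter fun V => P.Eb M V).card with hE
    have c2 : U12.card * 243 ^ P.d ≤ (3 * P.D + 15 * P.d + 3) * (E * T) := by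
      calc U12.card * 243 ^ P.d
          ≤ ((∑ _i : Fin 3, ∑ j ∈ range P.D, (A1 _i j).card) +
        ∑ _i : Fin 3, ∑ x ∈ range (5 * P.d + 1), (A2 _i x).card) * 243 ^ P.d :=
            Nat.mul_le_mul_right _ c1
        _ = (∑ _i : Fin 3, ∑ j ∈ range P.D, (A1 _i j).card * 243 ^ P.d) +
        ∑ _i : Fin 3, ∑ x ∈ range (5 * P.d + 1), (A2 _i x).card * 243 ^ P.d := by
            rw [Nat.add_mul, Finset.sum_mul, Finset.sum_mul]
            simp only [Finset.sum_mul]
        _ ≤ (∑ _i : Fin 3, ∑ j ∈ range P.D, E * T) +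
        ∑ _i : Fin 3, ∑ x ∈ range (5 * P.d + 1), E * T := by
            refine Nat.add_le_add ?_ ?_
            · exact Finset.sum_le_sum fun i _ => Finset.sum_le_sum fun j _ =>
                gen_cyc P M hd hdD i j
            · refine Finset.sum_le_sum fun i _ => Finset.sum_le_sum fun x hx => ?_
              rw [Finset.mem_range] at hx
              exact gen_jun P M hd hdD i x (by omega)
        _ = _ := by
            simp only [Finset.sum_const, Finset.card_univ, Fintype.card_fin, Finset.card_range,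
              smul_eq_mul]
            ring
    have c3 : 100000 * U12.card * 243 ^ P.d ≤ T * 243 ^ P.d := by
      calc 100000 * U12.card * 243 ^ P.d = 100000 * (U12.card * 243 ^ P.d) := by ring
        _ ≤ 100000 * ((3 * P.D + 15 * P.d + 3) * (E * T)) := Nat.mul_le_mul_left _ c2
        _ ≤ 100000 * ((3 * P.D + 15 * P.d + 3) * ((2 * (K * (3 * P.d) * 216 ^ P.d)) * T)) :=
            Nat.mul_le_mul_left _ (Nat.mul_le_mul_left _ (Nat.mul_le_mul_right _ hEB))
        _ = T * (100000 * ((3 * P.D + 15 * P.d + 3) * (2 * (K * (3 * P.d) * 216 ^ P.d)))) := by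
            ring
        _ ≤ T * 243 ^ P.d := Nat.mul_le_mul_left _ p1
    exact Nat.le_of_mul_le_mul_right c3 (by positivity)
  have hR2 : 100000 * (univ.filter fun x : P.Wd × P.Wd => P.Rel M x.1 x.2).card ≤ Δ * W :=
    (Nat.mul_le_mul_left _ hRC).trans p2
  have b34 : 100000 * U34.card ≤ 6 * T := by
    have c1 : U34.card ≤ (∑ i : Fin 3, (A3 i).card) + ∑ i : Fin 3, (A4 i).card :=
      (Finset.card_union_le _ _).trans (Nat.add_le_add Finset.card_biUnion_le
        Finset.card_biUnion_le)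
    have d3 := gen_deg P (fun a => P.odeg M a) _ Δ (gen_odeg P M) hΔ1 hR2
    have d4 := gen_deg P (fun a => P.ideg M a) _ Δ (gen_ideg P M) hΔ1 hR2
    have c3 : ∀ i, 100000 * (A3 i).card ≤ T := by
      intro i
      have := gen_one P (fun a => ¬ P.odeg M a ≤ Δ) i
      calc 100000 * (A3 i).card
          ≤ 100000 * ((univ.filter fun a => ¬ P.odeg M a ≤ Δ).card * W * W) :=
            Nat.mul_le_mul_left _ this
        _ = (100000 * (univ.filter fun a => ¬ P.odeg M a ≤ Δ).card) * (W * W) := by ring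
        _ ≤ W * (W * W) := Nat.mul_le_mul_right _ d3
        _ = T := by rw [← hWT]; ring
    have c4 : ∀ i, 100000 * (A4 i).card ≤ T := by
      intro i
      have := gen_one P (fun a => ¬ P.ideg M a ≤ Δ) i
      calc 100000 * (A4 i).card
          ≤ 100000 * ((univ.filter fun a => ¬ P.ideg M a ≤ Δ).card * W * W) :=
            Nat.mul_le_mul_left _ this
        _ = (100000 * (univ.filter fun a => ¬ P.ideg M a ≤ Δ).card) * (W * W) := by ring
        _ ≤ W * (W * W) := Nat.mul_le_mul_right _ d4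
        _ = T := by rw [← hWT]; ring
    rw [Fin.sum_univ_three, Fin.sum_univ_three] at c1
    have := c3 0
    have := c3 1
    have := c3 2
    have := c4 0
    have := c4 1
    have := c4 2
    omega
  have hp3 : 100000 * (W * Δ ^ 3) ≤ T := by
    calc 100000 * (W * Δ ^ 3) = W * (100000 * Δ ^ 3) := by ring
      _ ≤ W * 9 ^ P.D := Nat.mul_le_mul_left _ p3
      _ = T := by rw [← h9, ← hWT]; ring
  have b5 : 100000 * A5.card ≤ T :=
    (Nat.mul_le_mul_left _ (gen_common P (fun s a => P.Rel M a s) Δ)).trans hp3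
  have b6 : 100000 * A6.card ≤ T :=
    (Nat.mul_le_mul_left _ (gen_common P (P.Rel M) Δ)).trans hp3
  have b7 : 100000 * A7.card ≤ T := by
    have := gen_two P (P.Rel M) 0
    calc 100000 * A7.card
        ≤ 100000 * ((univ.filter fun x : P.Wd × P.Wd => P.Rel M x.1 x.2).card * W) :=
          Nat.mul_le_mul_left _ this
      _ = (100000 * (univ.filter fun x : P.Wd × P.Wd => P.Rel M x.1 x.2).card) * W := by ring
      _ ≤ (Δ * W) * W := Nat.mul_le_mul_right _ hR2
      _ ≤ (W * W) * W := Nat.mul_le_mul_right _ (Nat.mul_le_mul_right _ hΔ2)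
      _ = T := hWT
  have b8 : 100000 * U8.card ≤ 3 * T := by
    have c1 : U8.card ≤ ∑ i : Fin 3, (A8 i).card := Finset.card_biUnion_le
    have c3 : ∀ i, 100000 * (A8 i).card ≤ T := by
      intro i
      have := gen_one P (fun a => P.Blk M a) i
      calc 100000 * (A8 i).card
          ≤ 100000 * ((univ.filter fun a => P.Blk M a).card * W * W) :=
            Nat.mul_le_mul_left _ this
        _ = (100000 * (univ.filter fun a => P.Blk M a).card) * (W * W) := by ring
        _ ≤ W * (W * W) := Nat.mul_le_mul_right _ ((Nat.mul_le_mul_left _ hBl).trans p4)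
        _ = T := by rw [← hWT]; ring
    rw [Fin.sum_univ_three] at c1
    have := c3 0
    have := c3 1
    have := c3 2
    omega
  have b9 : 10000 * A9.card ≤ T := by
    have h1 := gen_two P (fun a b => a = b) 0
    have h2 : (univ.filter fun x : P.Wd × P.Wd => x.1 = x.2).card ≤ W := by
      have : (univ.filter fun x : P.Wd × P.Wd => x.1 = x.2).card ≤
          (univ : Finset P.Wd).card := by
        refine Finset.card_le_card_of_injOn (fun x => x.1) (fun _ _ => by simp) ?_
        rintro ⟨a, b⟩ h ⟨a', b'⟩ h' hh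
        simp only [Finset.coe_filter, Finset.mem_univ, true_and, Set.mem_ofPred_eq] at h h' hh
        rw [← h, ← h', hh]
      rwa [Finset.card_univ, gen_cardW] at this
    calc 10000 * A9.card
        ≤ 10000 * ((univ.filter fun x : P.Wd × P.Wd => x.1 = x.2).card * W) :=
          Nat.mul_le_mul_left _ h1
      _ ≤ 10000 * (W * W) := Nat.mul_le_mul_left _ (Nat.mul_le_mul_right _ h2)
      _ ≤ W * (W * W) := Nat.mul_le_mul_right _ hD3
      _ = T := by rw [← hWT]; ring
  have htot : (univ.filter fun w : Fin 3 → P.Wd => ¬ P.Gen M Δ w).card ≤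
      U12.card + (U34.card + (A5.card + (A6.card + (A7.card + (U8.card + A9.card))))) := by
    refine (Finset.card_le_card hsub).trans ?_
    refine (Finset.card_union_le _ _).trans (Nat.add_le_add_left ?_ _)
    refine (Finset.card_union_le _ _).trans (Nat.add_le_add_left ?_ _)
    refine (Finset.card_union_le _ _).trans (Nat.add_le_add_left ?_ _)
    refine (Finset.card_union_le _ _).trans (Nat.add_le_add_left ?_ _)
    refine (Finset.card_union_le _ _).trans (Nat.add_le_add_left ?_ _)
    exact Finset.card_union_le _ _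
  omega

end

/-- module GEN -/
theorem st_GEN (hEB : ST_EB) (hRC : ST_RC) : ST_GEN := by
  intro Q _ P M K Δ hQ hP
  have h1 := hEB Q P M K hQ hP.hd
  have hD : 1 ≤ P.D := by have := hP.hd; have := hP.hdD; omega
  obtain ⟨h2, h3⟩ := hRC Q P M K hQ hP.hK hD
  exact gen_main P M K Δ hP h1 h2 h3

end Pool.Agent.Helper82.EN
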